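import Pool.Agent.Lib.helper3.Rup

namespace Pool.Agent.H.MP_f12eed_co
open Pool.Agent.Lib.helper3.Rup

abbrev F := Fin 8

def ed (i : ℕ) : F × F := [(0, 1), (0, 2), (0, 3), (0, 4), (0, 5), (0, 6), (0, 7), (1, 2), (1, 3),
  (1, 4), (1, 5), (1, 6), (1, 7), (2, 3), (2, 4), (2, 5), (2, 6), (2, 7), (3, 4), (3, 5), (3, 6),
  (3, 7), (4, 5), (4, 6), (4, 7), (5, 6), (5, 7), (6, 7)].getD i (0, 1)

open Classical in
noncomputable def cnt (h : F → F → Prop) (i : ℕ) : ℕ :=
  ((Finset.range i).filter fun k => h (ed k).1 (ed k).2).card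

structure Loc (h : F → F → Prop) (c : F → F → F → Prop) : Prop where
  hs : ∀ a b, h a b → h b a
  cs : ∀ a b x, c a b x → c b a x
  A0 : ∀ a b x y z, x < y → y < z → c a b x → c a b y → ¬ c a b z
  A1 : ∀ a b x y, x < y → c a b x → c a b y → h x y
  A2 : ∀ a b x, c a b x → ∃ y, y ≠ a ∧ y ≠ b ∧ y ≠ x ∧ h x y
  A3 : ∀ a b d, a < d → h a b → h b d → c a b d ∨ c b d a
  A4 : 13 ≤ cnt h 28
  A5 : ∀ a : F, 0 < a → a < 5 → h 0 a
  A6 : ∀ a : F, 5 ≤ a → a < 7 → c 0 1 (a - 3)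

def val (h : F → F → Prop) (c : F → F → F → Prop) (k : ℕ) : Prop :=
  if k % 4 = 0 then h (Fin.ofNat 8 (k / 4)) (Fin.ofNat 8 (k / 32))
  else if k % 4 = 1 then c (Fin.ofNat 8 (k / 4)) (Fin.ofNat 8 (k / 32)) (Fin.ofNat 8 (k / 256))
  else 8 * (k % 4 - 2) + k / 4 % 8 ≤ cnt h (k / 32)

def vH (a b : F) : ℕ := 4 * ((min a b).val + 8 * (max a b).val)
def vC (a b x : F) : ℕ := 1 + 4 * ((min a b).val + 8 * ((max a b).val + 8 * x.val))
def vS (i j : ℕ) : ℕ := 2 + j / 8 + 4 * (j % 8 + 8 * i)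

variable {h : F → F → Prop} {c : F → F → F → Prop}

theorem eH (L : Loc h c) (a b : F) : val h c (vH a b) ↔ h a b := by
  have e1 : Fin.ofNat 8 (vH a b / 4) = min a b := Fin.ext (by simp only [vH, Fin.val_ofNat]; omega)
  have e2 : Fin.ofNat 8 (vH a b / 32) = max a b := Fin.ext (by simp only [vH, Fin.val_ofNat]; omega)
  rw [val, if_pos (by unfold vH; omega), e1, e2]
  rcases le_total a b with l | l
  · rw [min_eq_left l, max_eq_right l]
  · rw [min_eq_right l, max_eq_left l]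
    exact ⟨L.hs _ _, L.hs _ _⟩

theorem eC (L : Loc h c) (a b x : F) : val h c (vC a b x) ↔ c a b x := by
  have e1 : Fin.ofNat 8 (vC a b x / 4) = min a b :=
    Fin.ext (by simp only [vC, Fin.val_ofNat]; omega)
  have e2 : Fin.ofNat 8 (vC a b x / 32) = max a b :=
    Fin.ext (by simp only [vC, Fin.val_ofNat]; omega)
  have e3 : Fin.ofNat 8 (vC a b x / 256) = x := Fin.ext (by simp only [vC, Fin.val_ofNat]; omega)
  rw [val, if_neg (by unfold vC; omega), if_pos (by unfold vC; omega), e1, e2, e3]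
  rcases le_total a b with l | l
  · rw [min_eq_left l, max_eq_right l]
  · rw [min_eq_right l, max_eq_left l]
    exact ⟨L.cs _ _ _, L.cs _ _ _⟩

theorem eS (i : ℕ) {j : ℕ} (hj : j < 16) : val h c (vS i j) ↔ j ≤ cnt h i := by
  rw [val, if_neg (by unfold vS; omega), if_neg (by unfold vS; omega),
    show vS i j / 32 = i by unfold vS; omega,
    show 8 * (vS i j % 4 - 2) + vS i j / 4 % 8 = j by
      rw [show vS i j % 4 = 2 + j / 8 by unfold vS; omega,
        show vS i j / 4 = j % 8 + 8 * i by unfold vS; omega]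
      omega]

def P (k : ℕ) : ℕ := 2 * k + 2
def N (k : ℕ) : ℕ := 2 * k + 3

def g1 (ty : ℕ) (a b x y z : F) : ℕ :=
  if ty = 0 then (if x < y ∧ y < z then cl [N (vC a b x), N (vC a b y), N (vC a b z)] else 1)
  else if ty = 1 then (if x < y then cl [N (vC a b x), N (vC a b y), P (vH x y)] else 1)
  else if ty = 2 then cl (N (vC a b x) ::
    ((List.finRange 8).filter fun y => y ≠ a ∧ y ≠ b ∧ y ≠ x).map fun y => P (vH x y))
  else if ty = 3 then
    (if a < x then cl [N (vH a b), N (vH b x), P (vC a b x), P (vC b x a)] else 1)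
  else if 0 < a ∧ a < 5 then cl [P (vH 0 a)]
  else if 5 ≤ a ∧ a < 7 then cl [P (vC 0 1 (a - 3))] else 1

def g2 (ty i j : ℕ) : ℕ :=
  if 0 < j ∧ j < 16 then
    (if ty = 4 then
      (if i = 0 then cl [N (vS i j)] else if i = 28 ∧ j = 13 then cl [P (vS i j)] else 1)
    else if ty = 5 then cl [N (vS (i + 1) j), P (vS i j), P (vH (ed i).1 (ed i).2)]
    else cl [N (vS (i + 1) j), P (vS i (j - 1))])
  else 1

def gen (p : ℕ) : ℕ :=
  if 4 ≤ p % 8 ∧ p % 8 ≤ 6 then g2 (p % 8) (p / 512) (p / 8 % 64)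
  else g1 (p % 8) (Fin.ofNat 8 (p / 8)) (Fin.ofNat 8 (p / 64)) (Fin.ofNat 8 (p / 512))
    (Fin.ofNat 8 (p / 4096)) (Fin.ofNat 8 (p / 32768))

theorem cnt_succ (i : ℕ) : cnt h (i + 1) ≤ cnt h i + 1 ∧
    (¬ h (ed i).1 (ed i).2 → cnt h (i + 1) = cnt h i) := by
  unfold cnt
  rw [Finset.range_add_one, Finset.filter_insert]
  split_ifs with e
  · exact ⟨Finset.card_insert_le _ _, fun n => absurd e n⟩
  · exact ⟨Nat.le_succ _, fun _ => rfl⟩

theorem gen_ok (L : Loc h c) (p : ℕ) : S (W (val h c)) (gen p) := by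
  unfold gen
  split_ifs
  · generalize p % 8 = ty, p / 512 = i, p / 8 % 64 = j
    unfold g2
    have := cnt_succ (h := h) i
    have h0 : cnt h 0 = 0 := rfl
    have h13 := L.A4
    split_ifs with h1 h2 h3 h4 <;> try exact S_one _
    all_goals
      rw [S_cl]
      simp only [List.mem_cons, List.not_mem_nil, or_false, exists_eq_or_imp, exists_eq_left, P, N,
        W_pos, W_neg, eH L, eS _ h1.2, eS _ (show j - 1 < 16 by omega)]
    · subst h3
      omega
    · rw [h4.1, h4.2]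
      exact h13
    · by_cases e : h (ed i).1 (ed i).2
      · exact .inr (.inr e)
      · have := this.2 e
        omega
    · omega
  · generalize p % 8 = ty, Fin.ofNat 8 (p / 8) = a, Fin.ofNat 8 (p / 64) = b,
      Fin.ofNat 8 (p / 512) = x, Fin.ofNat 8 (p / 4096) = y, Fin.ofNat 8 (p / 32768) = z
    unfold g1
    split_ifs with h1 h2 h3 h4 h5 h6 h7 h8 h9 <;> try exact S_one _
    all_goals
      rw [S_cl]
      simp only [List.mem_cons, List.not_mem_nil, or_false, exists_eq_or_imp, exists_eq_left, P, N,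
        W_pos, W_neg, eH L, eC L]
    · have := L.A0 a b x y z h2.1 h2.2
      tauto
    · have := L.A1 a b x y h4
      tauto
    · refine or_iff_not_imp_left.2 fun k => ?_
      obtain ⟨y, k1, k2, k3, k4⟩ := L.A2 a b x (not_not.1 k)
      refine ⟨_, List.mem_map.2 ⟨y, by simp [k1, k2, k3], rfl⟩, ?_⟩
      rw [W_pos, eH L]
      exact k4
    · have := L.A3 a b x h7
      tauto
    · exact L.A5 a h8.1 h8.2
    · exact L.A6 a h9.1 h9.2

end Pool.Agent.H.MP_f12eed_co
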